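import Pool.Agent.Q173.CP.Phi

/-!
# MP_d037d4_ag: the p-adic weight-monodromy conjecture and crystalline periods in the middle degree

`K` is a finite extension of `ℚ_p` with residue field with `q = p ^ f` elements, `K₀` the maximal
unramified subfield and `σ` its Frobenius, `C` a class of smooth projective varieties over `K` closed
under products, and `T : PhiTheory C K₀` their Hyodo-Kato cohomology: `H^m_HK(Y)` is a
`(φ, N)`-module over `K₀`. For `V = H^m(Y, ℚ_p(r))` we have
`D_cris(V)^(φ = 1) = {x ∈ H^m_HK(Y) : N x = 0, φ x = p ^ r x}` (for varieties which become semistable over an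
extension of `K` with the same residue field one has to replace `K` by this extension).

`IsPadic` are the known properties: the axioms of `(φ, N)`-modules and, for the linear Frobenius
`F = φ ^ f` and `N` after extension of scalars to an algebraically closed field `Ω`, Frobenius
weights, Poincare duality, the Künneth formula, the cohomology of a split Tate curve `E` and of
varieties with good reduction (`good A`), and the theorem of Honda and Tate: for every eigenvalue `α`
of `F` on the cohomology of a member of `C` some `q ^ s / α` is an eigenvalue on the cohomology of an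
abelian variety with good reduction.

The p-adic weight-monodromy conjecture implies `D_cris(V)^(φ = 1) = 0` for `V = H^m(Y, ℚ_p(r))`,
`m < 2 r`; for `m = 2 r - 1` this means that the subspaces `H^1_e`, `H^1_f`, `H^1_g` of Bloch and Kato
of `H^1(K, V)` are equal. We show that conversely the conjecture follows from this, even if only
`m = d = 2 r - 1`, `d = dim Y` odd, is considered.
-/

set_option autoImplicit false

open Module

universe u v w

namespace Pool.Agent.Results.MP_d037d4_ag.MiddlePeriods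

open Pool.Agent.Y163.MW Pool.Agent.Y163.MW.Coh Pool.Agent.Q173.OG Pool.Agent.Q173.CP
  Pool.Agent.Q57.WM Pool.Agent.Q173.OS

section

variable {C : Type u} {K₀ Ω : Type w} [Field K₀] [Field Ω] [CharZero Ω] [Algebra K₀ Ω]

/-- The p-adic weight-monodromy conjecture for `X`: for all `i` and `j` the eigenvalues of `F` on
`gr^M_j H^i_HK(X)` are Weil numbers of weight `i + j`. -/
def MW (T : PhiTheory.{u, v, w} C K₀) (Ω : Type w) [Field Ω] [CharZero Ω] [Algebra K₀ Ω] (q : ℕ)
    (X : C) : Prop := ∀ i, ((T.ext Ω).H X).MWPure q i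

/-- `D_cris(V)^(φ = 1) = 0` for `V = H^m(Y, ℚ_p(r))`, `m + B < 2 r`. -/
def NoTate (T : PhiTheory.{u, v, w} C K₀) (p B : ℕ) (Y : C) : Prop :=
  ∀ m r : ℕ, m + B < 2 * r → (T.H Y).NoCris p m r

/-- `D_cris(V)^(φ = 1) = 0` for `V = H^(2 r - 1)(Y, ℚ_p(r))` for all `r`. -/
def Central (T : PhiTheory.{u, v, w} C K₀) (p : ℕ) (Y : C) : Prop :=
  ∀ m r : ℕ, m + 1 = 2 * r → (T.H Y).NoCris p m r

/-- `D_cris(V)^(φ = 1) = 0` for `V = H^d(Y, ℚ_p(r))`, if the dimension `d = 2 r - 1` of `Y` is
odd. -/
def Middle (T : PhiTheory.{u, v, w} C K₀) (p : ℕ) (Y : C) : Prop :=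
  ∀ r : ℕ, T.dim Y + 1 = 2 * r → (T.H Y).NoCris p (T.dim Y) r

/-- The conjecture for all varieties. -/
def AllVarieties (T : PhiTheory.{u, v, w} C K₀) (Ω : Type w) [Field Ω] [CharZero Ω]
    [Algebra K₀ Ω] (p f : ℕ) : Prop :=
  ((∀ X, MW T Ω (p ^ f) X) ↔ ∀ Y, Middle T p Y) ∧ ((∀ X, MW T Ω (p ^ f) X) ↔ ∀ Y, Central T p Y) ∧
    (∀ B, (∀ X, MW T Ω (p ^ f) X) ↔ ∀ Y, NoTate T p B Y)

end

/-- **The p-adic weight-monodromy conjecture for all varieties and crystalline periods in the middle degree.** -/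
theorem result {C : Type u} {K₀ Ω : Type w} [Field K₀] [CharZero K₀] [Field Ω] [CharZero Ω]
    [IsAlgClosed Ω] [Algebra K₀ Ω] {T : PhiTheory.{u, v, w} C K₀} {σ : K₀ ≃+* K₀} {p f : ℕ} {E : C}
    {good : C → Prop} (hp : 1 < p) (hT : T.IsPadic Ω σ p f E good) : AllVarieties T Ω p f := by
  obtain ⟨⟨hf, hσ, hσ'⟩, hphi, hK⟩ := hT
  have hq : 1 < p ^ f := Nat.one_lt_pow (by omega) hp
  have hB := hK.base
  have hq0 : ((p ^ f : ℕ) : Ω) ≠ 0 := Nat.cast_ne_zero.2 (by omega)
  have key : ∀ Y m r, (T.H Y).NoCris p m r ↔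
      ¬ Vec ((T.ext Ω).H Y) m (((p ^ f : ℕ) : Ω) ^ r) := fun Y m r =>
    noCris_iff (hphi Y) (by omega) hf hσ hσ' m r
  have hvan : ∀ Y, MW T Ω (p ^ f) Y → NoTate T p 0 Y := fun Y hY m r hm =>
    (key Y m r).2 (no_tate hq hB hY (by omega))
  have hpart : ∀ Y, ∃ A, good A ∧ IsPartner (T.ext Ω) (p ^ f) A Y :=
    fun Y => exists_partner hK hq Y
  have hall : (∀ Y, Middle T p Y) → ∀ X, MW T Ω (p ^ f) X := by
    intro h X
    by_contra hX
    obtain ⟨l, j, α, wt, hv, hw, hj⟩ := bad_stk hK hq hX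
    obtain ⟨A, b, -, m, r, hm, hx⟩ := central_of_vec hK hq hv hw hj
    obtain ⟨Y, r', hr', hy⟩ := mid_of_central hK hm hx
    exact (key Y _ r').1 (h Y r' hr') hy
  refine ⟨?_, ?_, ?_⟩
  · exact ⟨fun h Y r hr => hvan Y (h Y) _ r (by omega), hall⟩
  · exact ⟨fun h Y m r hm => hvan Y (h Y) m r (by omega), fun h => hall fun Y r hr => h Y _ r hr⟩
  · intro B
    constructor
    · intro h Y m r hm
      exact hvan Y (h Y) m r (by omega)
    · intro h X
      by_contra hX
      obtain ⟨A, hA, hp'⟩ := hpart (T.prod X X)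
      obtain ⟨m, r, hm, hx⟩ := low_of_bad hK hq hA hp' hX
      have h1 := vec_pw hK hx B
      rw [← pow_mul] at h1
      refine (key _ _ _).1 (h _ ((B + 1) * m) (r * (B + 1)) ?_) h1
      nlinarith

end Pool.Agent.Results.MP_d037d4_ag.MiddlePeriods
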