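import Pool.Agent.Q57.PL.LawsMain

/-!
# MP_d037d4_ag: the `p`-adic weight-monodromy conjecture from a few eigenvalues

`C` is a class of smooth projective varieties over the `p`-adic field `K` (residue field with `q`
elements), closed under products (geometrically connected, of pure dimension `dim`), for instance all
of them, `T : PTheory C Ω` is their Hyodo-Kato cohomology (after a finite extension of `K`, scalars
extended to the algebraically closed field `Ω`) with the linear Frobenius `F = φ^f` and the operator
`N`, with its known properties `IsKnown` (`N F = q F N`, Weil numbers, Poincare duality between `H^m`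
and `H^(2 d - m)`, Künneth formula).
For a variety `Y` and the monodromy filtration `M` of `H^*(Y)` let `within M L` be the number of the
eigenvalues on the graded pieces `M_s / M_(s-1)` whose weight differs from the one predicted by Q1 by at
most `L`. If Q1 fails for `X`, then on `X^(n+1)` the proportion of these eigenvalues tends to zero like
`n^(-1/2)`.
-/

set_option autoImplicit false

open Module

universe u v w

namespace Pool.Agent.Results.MP_d037d4_ag.NearWeightsPadic

open Pool.Agent.Y143 Pool.Agent.Y163.MW Pool.Agent.Y163.MW.Coh Pool.Agent.Q173.OG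
  Pool.Agent.Q173.AL Pool.Agent.Q57.PL.L

section

variable {C : Type u} {Ω : Type w} [Field Ω] [CharZero Ω]

/-- One variety, numbers of eigenvalues: a proportion of more than
`(2 L + 1) / √(1 + (n + 1) / (2 b))` of eigenvalues on `X ^ (n + 1)` which have the predicted weight
up to an error `L` suffices. -/
def CountCriterion (T : PTheory.{u, v, w} C Ω) (q : ℕ) : Prop :=
  ∀ (X : C) (n L : ℕ) (M : ℤ → Submodule Ω (T.H (T.pw X n)).V),
    IsMonodromyFiltrationOn ⊤ (T.H (T.pw X n)).N M →
    (2 * L + 1) * (finrank Ω (T.H X).V : ℝ) ^ (n + 1) <
      (within (T.H (T.pw X n)) q M L : ℝ) * √(1 + ((n + 1 : ℕ) : ℝ) /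
        (2 * (finrank Ω (T.H X).V : ℝ))) →
      ∀ m, (T.H X).MWPure q m

end

/-- **The `p`-adic weight-monodromy conjecture from a small proportion of eigenvalues with nearly the
predicted weight.** -/
theorem result {C : Type u} {Ω : Type w} [Field Ω] [CharZero Ω] [IsAlgClosed Ω]
    {T : PTheory.{u, v, w} C Ω} {q : ℕ} (hq : 1 < q) (hT : T.IsKnown q) :
    CountCriterion T q ∧
      ((∀ X : C, 1 ≤ T.dim X → ∀ m, (T.H X).MWPure q m) ↔ ManyNear T q) := by
  refine ⟨fun X n L M hM h => ?_, near_of_pure hT hq, fun h X hd => pure_of_near hT hq h X hd⟩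
  by_contra hX
  exact absurd (within_pow hT hq hX n L hM) (not_le.2 h)

end Pool.Agent.Results.MP_d037d4_ag.NearWeightsPadic
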