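import Pool.Agent.Q173.CP.Phi

/-!
# MP_d037d4_ag: the p-adic weight-monodromy conjecture for one variety and crystalline periods at the central points

`K` is a finite extension of `ℚ_p` with residue field with `q = p ^ f` elements, `K₀` the maximal
unramified subfield and `σ` its Frobenius, `C` a class of smooth projective varieties over `K` closed
under products, and `T : PhiTheory C K₀` their Hyodo-Kato cohomology: `H^m_HK(Y)` is a
`(φ, N)`-module over `K₀`. For `V = H^m(Y, ℚ_p(r))` we have
`D_cris(V)^(φ = 1) = {x ∈ H^m_HK(Y) : N x = 0, φ x = p ^ r x}` (for varieties which become semistable over an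
extension of `K` with the same residue field one has to replace `K` by this extension).

`IsPadic` are the known properties: the axioms of `(φ, N)`-modules and, for the linear Frobenius
`F = φ ^ f` and `N` after extension of scalars to an algebraically closed field `Ω`, Frobenius
weights, Poincare duality, the Künneth formula, the cohomology of a split Tate curve `E` and of
varieties with good reduction (`good A`), and the theorem of Honda and Tate: for every eigenvalue `α`
of `F` on the cohomology of a member of `C` some `q ^ s / α` is an eigenvalue on the cohomology of an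
abelian variety with good reduction.

The p-adic weight-monodromy conjecture implies `D_cris(V)^(φ = 1) = 0` for `V = H^m(Y, ℚ_p(r))`,
`m < 2 r`; for `m = 2 r - 1` this means that the subspaces `H^1_e`, `H^1_f`, `H^1_g` of Bloch and Kato
of `H^1(K, V)` are equal. We show that conversely the conjecture for one variety `X` follows from this for
one variety `Y` and all `m = 2 r - 1`: if the conjecture for `X` is known above `k + 1`, for
`Y = X × E^k × A`, where `A` has good reduction and is a partner of `X × E^k` in the sense of Honda and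
Tate. Without any knowledge on `X` one can use `Y = X × X × A` and all `m < 2 r`.
-/

set_option autoImplicit false

open Module

universe u v w

namespace Pool.Agent.Results.MP_d037d4_ag.OneVarietyPeriods

open Pool.Agent.Y163.MW Pool.Agent.Y163.MW.Coh Pool.Agent.Q173.OG Pool.Agent.Q173.CP
  Pool.Agent.Q57.WM Pool.Agent.Q173.OS

section

variable {C : Type u} {K₀ Ω : Type w} [Field K₀] [Field Ω] [CharZero Ω] [Algebra K₀ Ω]

/-- The p-adic weight-monodromy conjecture for `X`: for all `i` and `j` the eigenvalues of `F` on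
`gr^M_j H^i_HK(X)` are Weil numbers of weight `i + j`. -/
def MW (T : PhiTheory.{u, v, w} C K₀) (Ω : Type w) [Field Ω] [CharZero Ω] [Algebra K₀ Ω] (q : ℕ)
    (X : C) : Prop := ∀ i, ((T.ext Ω).H X).MWPure q i

/-- `D_cris(V)^(φ = 1) = 0` for `V = H^m(Y, ℚ_p(r))`, `m < 2 r`. -/
def NoTate (T : PhiTheory.{u, v, w} C K₀) (p : ℕ) (Y : C) : Prop :=
  ∀ m r : ℕ, m < 2 * r → (T.H Y).NoCris p m r

/-- `D_cris(V)^(φ = 1) = 0` for `V = H^(2 r - 1)(Y, ℚ_p(r))` for all `r`. -/
def Central (T : PhiTheory.{u, v, w} C K₀) (p : ℕ) (Y : C) : Prop :=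
  ∀ m r : ℕ, m + 1 = 2 * r → (T.H Y).NoCris p m r

/-- The conjecture for one variety `X`, if it is known above `k + 1`. -/
def OneVariety (T : PhiTheory.{u, v, w} C K₀) (Ω : Type w) [Field Ω] [CharZero Ω]
    [Algebra K₀ Ω] (p f : ℕ) (E : C) (good : C → Prop) : Prop :=
  ∀ X : C,
    (∀ (k : ℕ) (A : C), (∀ m, WMAbove ((T.ext Ω).H X) (p ^ f) m (k + 1)) → good A →
      IsPartner (T.ext Ω) (p ^ f) A ((T.ext Ω).stk X E k) →
        (MW T Ω (p ^ f) X ↔ Central T p (T.prod ((T.ext Ω).stk X E k) A))) ∧
    (∀ A : C, good A → IsPartner (T.ext Ω) (p ^ f) A (T.prod X X) →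
      (MW T Ω (p ^ f) X ↔ NoTate T p (T.prod (T.prod X X) A)))

/-- The conjecture for `Y` implies the vanishing for `Y`; every variety has a partner. -/
def Complements (T : PhiTheory.{u, v, w} C K₀) (Ω : Type w) [Field Ω] [CharZero Ω]
    [Algebra K₀ Ω] (p f : ℕ) (good : C → Prop) : Prop :=
  (∀ Y, MW T Ω (p ^ f) Y → NoTate T p Y) ∧
    ∀ Y, ∃ A, good A ∧ IsPartner (T.ext Ω) (p ^ f) A Y

end

/-- **The p-adic weight-monodromy conjecture for one variety and crystalline periods at the central points.** -/
theorem result {C : Type u} {K₀ Ω : Type w} [Field K₀] [CharZero K₀] [Field Ω] [CharZero Ω]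
    [IsAlgClosed Ω] [Algebra K₀ Ω] {T : PhiTheory.{u, v, w} C K₀} {σ : K₀ ≃+* K₀} {p f : ℕ} {E : C}
    {good : C → Prop} (hp : 1 < p) (hT : T.IsPadic Ω σ p f E good) :
    OneVariety T Ω p f E good ∧ Complements T Ω p f good := by
  obtain ⟨⟨hf, hσ, hσ'⟩, hphi, hK⟩ := hT
  have hq : 1 < p ^ f := Nat.one_lt_pow (by omega) hp
  have hB := hK.base
  have hq0 : ((p ^ f : ℕ) : Ω) ≠ 0 := Nat.cast_ne_zero.2 (by omega)
  have key : ∀ Y m r, (T.H Y).NoCris p m r ↔
      ¬ Vec ((T.ext Ω).H Y) m (((p ^ f : ℕ) : Ω) ^ r) := fun Y m r =>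
    noCris_iff (hphi Y) (by omega) hf hσ hσ' m r
  have hvan : ∀ Y, MW T Ω (p ^ f) Y → NoTate T p Y := fun Y hY m r hm =>
    (key Y m r).2 (no_tate hq hB hY (by omega))
  refine ⟨?_, hvan, fun Y => exists_partner hK hq Y⟩
  · intro X
    refine ⟨fun k A hk hA hp' => ?_, fun A hA hp' => ?_⟩
    · have hgo : MW T Ω (p ^ f) X → MW T Ω (p ^ f) (T.prod ((T.ext Ω).stk X E k) A) := fun h =>
        pure_prod hq hB (pure_stk hq hB h hK.test.pure k)
          (pure_good hq hB (hK.goodRed A hA).trivial
            fun i α x hx h0 hF => (hK.goodRed A hA).pure i α ⟨x, hx, h0, hF⟩)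
      constructor
      · intro h m r hm
        exact hvan _ (hgo h) m r (by omega)
      · intro h
        by_contra hX
        obtain ⟨m, r, hm, hx⟩ := central_of_bad hK hq hA hp' hk hX
        exact (key _ m r).1 (h m r hm) hx
    · constructor
      · intro h
        exact hvan _ (pure_prod hq hB (pure_prod hq hB h h)
          (pure_good hq hB (hK.goodRed A hA).trivial
            fun i α x hx h0 hF => (hK.goodRed A hA).pure i α ⟨x, hx, h0, hF⟩))
      · intro h
        by_contra hX
        obtain ⟨m, r, hm, hx⟩ := low_of_bad hK hq hA hp' hX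
        exact (key _ m r).1 (h m r (by omega)) hx

end Pool.Agent.Results.MP_d037d4_ag.OneVarietyPeriods
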